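import Pool.Agent.H61.CM4.TargetsB
import Pool.Agent.H33.LI.PB

/-!
# The Gamma factor
-/

set_option autoImplicit false

open MeasureTheory Set Filter NumberField NumberField.InfinitePlace NumberField.Units
  NumberField.Units.dirichletUnitTheorem Pool.Agent.H65.CM4 Pool.Agent.H25.HK Pool.Agent.H61.CM4
open scoped Real

namespace Pool.Agent.H61.CM4B

theorem pf_GGB : T_GGB := by
  refine ⟨?_, ?_⟩
  · intro w hw
    have hG : DifferentiableAt ℂ Complex.Gamma w := by
      apply Complex.differentiableAt_Gamma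
      intro m h
      rw [h] at hw
      simp only [Complex.neg_re, Complex.natCast_re] at hw
      have := Nat.cast_nonneg (α := ℝ) m
      linarith
    have h2 : ((2 : ℂ) * π) ≠ 0 := by
      exact_mod_cast (by positivity : (2 : ℝ) * π ≠ 0)
    have hP : DifferentiableAt ℂ (fun s : ℂ => ((2 : ℂ) * π) ^ (-s)) w := by
      apply DifferentiableAt.const_cpow
      · exact differentiableAt_id.neg
      · left; exact h2
    unfold gG
    exact ((differentiableAt_id.mul (differentiableAt_id.sub_const 1)).mul hG).mul hP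
  · intro R
    obtain ⟨n, hn⟩ := exists_nat_ge R
    obtain ⟨K, hK, hb⟩ := Pool.Agent.H33.LI.gamma_bound n
    refine ⟨(|R| + 1) * K, n + 2, by positivity, ?_⟩
    intro w hw hR
    have hne : w ≠ 0 := by
      rintro rfl
      simp at hw
    have hE := (Complex.Gamma_add_one w hne).symm
    have e1 : gG w = (w - 1) * Complex.Gamma (w + 1) * (2 * (π : ℂ)) ^ (-w) := by
      unfold gG
      rw [← hE]; ring
    rw [e1, norm_mul, norm_mul]
    have h1 : ‖w - 1‖ ≤ (|R| + 1) * (1 + |w.im|) := by
      have h3 := Complex.norm_le_abs_re_add_abs_im (w - 1)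
      have h4 : |(w - 1).re| ≤ |R| + 1 := by
        rw [Complex.sub_re, Complex.one_re, abs_le]
        have := le_abs_self R
        constructor <;> linarith [abs_nonneg R]
      have h5 : |(w - 1).im| = |w.im| := by simp
      rw [h5] at h3
      have h6 := abs_nonneg w.im
      have h7 := abs_nonneg R
      nlinarith
    have h2 : ‖Complex.Gamma (w + 1)‖ ≤
        K * (1 + |w.im|) ^ (n + 1) * Real.exp (-(π * |w.im| / 2)) := by
      have h3 := hb (w.re + 1) w.im (by linarith) (by linarith)
      have h4 : ((w.re + 1 : ℝ) : ℂ) + w.im * Complex.I = w + 1 := by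
        apply Complex.ext <;> simp
      rw [h4] at h3
      exact h3
    have h3 : ‖(2 * (π : ℂ)) ^ (-w)‖ ≤ 1 := by
      have h4 : (2 * (π : ℂ)) = ((2 * π : ℝ) : ℂ) := by push_cast; ring
      rw [h4, Complex.norm_cpow_eq_rpow_re_of_pos (by positivity)]
      apply Real.rpow_le_one_of_one_le_of_nonpos
      · have := Real.pi_gt_three; linarith
      · simp only [Complex.neg_re]; linarith
    have h0 : (0 : ℝ) ≤ K * (1 + |w.im|) ^ (n + 1) * Real.exp (-(π * |w.im| / 2)) := by positivity
    calc ‖w - 1‖ * ‖Complex.Gamma (w + 1)‖ * ‖(2 * (π : ℂ)) ^ (-w)‖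
        ≤ ((|R| + 1) * (1 + |w.im|)) * (K * (1 + |w.im|) ^ (n + 1) *
            Real.exp (-(π * |w.im| / 2))) * 1 := by gcongr
      _ = (|R| + 1) * K * (1 + |w.im|) ^ (n + 2) * Real.exp (-(π * |w.im| / 2)) := by ring

end Pool.Agent.H61.CM4B
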