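import Pool.Agent.H61.CM4.TargetsB
import Pool.Agent.H66.HK.FD
import Pool.Agent.H87.HK.YC

/-!
# The pair of functions for the abstract functional equation
-/

set_option autoImplicit false

open MeasureTheory Set Filter NumberField NumberField.InfinitePlace NumberField.Units
  NumberField.Units.dirichletUnitTheorem Pool.Agent.H65.CM4 Pool.Agent.H25.HK Pool.Agent.H61.CM4
  Asymptotics
open scoped Real

namespace Pool.Agent.H61.CM4B

open scoped Classical in
section
variable (k : Type) [Field k] [NumberField k] [IsTotallyReal k]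

theorem wp_lattice (l : logSpace k) (hl : l ∈ unitLattice k) :
    ∃ u : (𝓞 k)ˣ, logEmbedding k (Additive.ofMul u) = l := by
  obtain ⟨b, -, hb⟩ := hl
  exact ⟨b.toMul, hb⟩

/-- the averaged theta function in the logarithmic variable -/
noncomputable def g2 (M : La k) (x y : Pl k → ℝ) (τ : ℝ) : ℝ := ∫ z in Fd k, th2 M x y (yc k τ z)

theorem f2_eq (M : La k) (x y : Pl k → ℝ) (t : ℝ) : f2 M x y t = g2 k M x y (Real.log t) := rfl

/-- a compact box containing the fundamental domain -/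
def bx2 (B : ℝ) : Set (logSpace k) := Set.pi univ (fun _ => Icc (-B) B)

theorem bx2_compact (B : ℝ) : IsCompact (bx2 k B) := isCompact_univ_pi (fun _ => isCompact_Icc)

theorem fd2_sub (B : ℝ) (hB : ∀ z ∈ Fd k, ∀ w, |z w| ≤ B) : Fd k ⊆ bx2 k B := by
  intro z hz w _
  exact abs_le.mp (hB z hz w)

theorem cont_th2 (hCT : T_CT2) (hYC : T_YC) (M : La k) (x y : Pl k → ℝ) (hy : ∀ v, 0 < y v) :
    Continuous (fun p : ℝ × logSpace k => th2 M x y (yc k p.1 p.2)) :=
  (hCT k M x y hy).comp (hYC k).2.2.2.2.1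

theorem g2_cont (hCT : T_CT2) (hYC : T_YC) (hFD : T_FD) (M : La k) (x y : Pl k → ℝ)
    (hy : ∀ v, 0 < y v) : Continuous (g2 k M x y) := by
  obtain ⟨hmeas, ⟨B, hB⟩, -⟩ := hFD k
  have h1 := continuous_parametric_integral_of_continuous (μ := volume.restrict (Fd k))
    (f := fun (τ : ℝ) (z : logSpace k) => th2 M x y (yc k τ z)) (s := bx2 k B)
    (cont_th2 k hCT hYC M x y hy) (bx2_compact k B)
  have h2 : (volume.restrict (Fd k)).restrict (bx2 k B) = volume.restrict (Fd k) := by
    rw [Measure.restrict_restrict (bx2_compact k B).measurableSet,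
      inter_eq_self_of_subset_right (fd2_sub k B hB)]
  rw [h2] at h1
  exact h1

theorem th2_int (hCT : T_CT2) (hYC : T_YC) (hFD : T_FD) (M : La k) (x y : Pl k → ℝ)
    (hy : ∀ v, 0 < y v) (τ : ℝ) :
    IntegrableOn (fun z => th2 M x y (yc k τ z)) (Fd k) := by
  obtain ⟨hmeas, ⟨B, hB⟩, -⟩ := hFD k
  have h1 : Continuous (fun z : logSpace k => th2 M x y (yc k τ z)) :=
    (cont_th2 k hCT hYC M x y hy).comp (Continuous.prodMk_right τ)
  exact (h1.continuousOn.integrableOn_compact (bx2_compact k B)).mono_set (fd2_sub k B hB)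

theorem f2_locInt (hCT : T_CT2) (hYC : T_YC) (hFD : T_FD) (M : La k) (x y : Pl k → ℝ)
    (hy : ∀ v, 0 < y v) (a : ℝ) (ha : 0 < a) :
    LocallyIntegrableOn (fun t => (f2 M x y (a * t) : ℂ)) (Ioi 0) := by
  apply ContinuousOn.locallyIntegrableOn _ measurableSet_Ioi
  refine Complex.continuous_ofReal.comp_continuousOn ?_
  have h1 : ContinuousOn (fun t : ℝ => Real.log (a * t)) (Ioi 0) := by
    apply ContinuousOn.log
    · exact continuousOn_const.mul continuousOn_id
    · intro t ht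
      exact (mul_pos ha ht).ne'
  exact (g2_cont k hCT hYC hFD M x y hy).comp_continuousOn h1

theorem f2_feq (hTH : T_THT) (hUI : T_UI2) (hYC : T_YC) (hFD : T_FD) (hIXD : T_IXD) (M : La k)
    (x y : Pl k → ℝ) (hM : ix M ≠ 0) (hy : ∀ v, 0 < y v) (t : ℝ) (ht : 0 < t) :
    f2 M x y (1 / t) =
      (Dm M : ℝ)⁻¹ * t ^ 2 * f2 (du M) x y (((Dm M : ℝ) ^ dg k)⁻¹ * t) := by
  obtain ⟨hdk, hdg, -⟩ := hIXD k
  have hD : (0 : ℝ) < Dm M := by
    unfold Dm
    exact_mod_cast Nat.mul_pos hdk (Nat.pos_of_ne_zero hM)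
  obtain ⟨hY1, hY2, hY3, hY4, hY5, hY6⟩ := hYC k
  set τ := Real.log t with hτ
  have hlog : Real.log (((Dm M : ℝ) ^ dg k)⁻¹ * t) = τ - dg k * Real.log (Dm M) := by
    rw [Real.log_mul (by positivity) ht.ne', Real.log_inv, Real.log_pow, hτ]
    ring
  have hmult : ∀ v : Pl k, (v.mult : ℝ) = 1 := by
    intro v
    unfold InfinitePlace.mult
    rw [if_pos (IsTotallyReal.isReal v)]
    simp
  have h1 : ∀ z : logSpace k, th2 M x y (yc k (Real.log (1 / t)) z) =
      ((Dm M : ℝ)⁻¹ * t ^ 2) * th2 (du M) x y (yc k (τ - dg k * Real.log (Dm M)) (-z)) := by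
    intro z
    rw [(hTH k M x y _ hM hy).2]
    have e1 : Real.log (1 / t) = -τ := by rw [one_div, Real.log_inv]
    rw [e1]
    have e0 : ∑ v : Pl k, yc k (-τ) z v = 2 * (-τ) := by
      rw [← hY1 (-τ) z]
      exact Finset.sum_congr rfl (fun v _ => by rw [hmult v, one_mul])
    rw [e0]
    have e2 : (fun v => -yc k (-τ) z v - 2 * Real.log (Dm M)) =
        yc k (τ - dg k * Real.log (Dm M)) (-z) := by
      funext v
      have h3 := congrFun (hY2 τ (-z)) v
      rw [neg_neg, Pi.neg_apply] at h3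
      rw [h3, neg_neg, hY4 τ (-z) v, hY4 (τ - dg k * Real.log (Dm M)) (-z) v]
      have h4 : (Module.finrank ℚ k : ℝ) = dg k := rfl
      have h5 : (dg k : ℝ) ≠ 0 := by exact_mod_cast hdg.ne'
      rw [h4]
      field_simp
      ring
    rw [e2]
    have e3 : Real.exp (-(2 * -τ)) = t ^ 2 := by
      rw [show -(2 * -τ) = τ + τ by ring, Real.exp_add, hτ, Real.exp_log ht]
      ring
    rw [e3]
    ring
  have h2 : f2 M x y (1 / t) = ∫ z in Fd k, ((Dm M : ℝ)⁻¹ * t ^ 2) *
      th2 (du M) x y (yc k (τ - dg k * Real.log (Dm M)) (-z)) := by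
    unfold f2
    exact integral_congr_ae (Eventually.of_forall h1)
  rw [h2, integral_const_mul, f2_eq, g2, hlog]
  congr 1
  exact (hFD k).2.2.2.2.2.2 (fun z => th2 (du M) x y (yc k (τ - dg k * Real.log (Dm M)) z))
    (fun z l hl => by
      obtain ⟨u, rfl⟩ := wp_lattice k l hl
      exact (hUI k x y _ z u).2.2 (du M))

theorem f2_top (hCT : T_CT2) (hYC : T_YC) (hFD : T_FD) (hDC : T_DC2) (M : La k)
    (x y : Pl k → ℝ) (hy : ∀ v, 0 < y v) (r : ℝ) :
    (fun t => (f2 M x y t : ℂ) - ((vF k : ℝ) : ℂ)) =O[atTop] (fun t : ℝ => t ^ r) := by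
  obtain ⟨C, c, hc, hb⟩ := hDC k M x y hy
  have hmeas := (hFD k).1
  have hlt := (hFD k).2.2.2.1
  set a : ℝ := (2 : ℝ) / dg k with ha
  have hapos : 0 < a := by
    have : 0 < dg k := Module.finrank_pos
    positivity
  have h1 : ∀ t : ℝ, 1 ≤ t → |f2 M x y t - vF k| ≤
      (vF k * C) * Real.exp (-c * t ^ a) := by
    intro t ht
    have e1 : f2 M x y t - vF k =
        ∫ z in Fd k, (th2 M x y (yc k (Real.log t) z) - 1) := by
      rw [integral_sub (th2_int k hCT hYC hFD M x y hy _)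
        (integrableOn_const (hs := hlt.ne))]
      simp [f2, vF]
    rw [e1]
    have e2 := norm_setIntegral_le_of_norm_le_const (μ := volume) (s := Fd k) hlt
      (C := C * Real.exp (-c * t ^ a)) (f := fun z => th2 M x y (yc k (Real.log t) z) - 1)
      (fun z hz => by rw [Real.norm_eq_abs]; exact hb t ht z hz)
    rw [Real.norm_eq_abs] at e2
    calc _ ≤ _ := e2
      _ = _ := by unfold vF; ring
  have h2 : (fun t : ℝ => Real.exp (-c * t ^ a)) =O[atTop] (fun t : ℝ => t ^ r) := by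
    have h3 := (isLittleO_exp_neg_mul_rpow_atTop hc (r / a)).isBigO.comp_tendsto
      (tendsto_rpow_atTop hapos)
    refine h3.congr' (Eventually.of_forall fun t => rfl) ?_
    filter_upwards [eventually_ge_atTop 0] with t ht
    simp only [Function.comp]
    rw [← Real.rpow_mul ht, mul_div_cancel₀ _ hapos.ne']
  refine IsBigO.trans ?_ h2
  refine IsBigO.of_bound (vF k * C) ?_
  filter_upwards [eventually_ge_atTop 1] with t ht
  rw [← Complex.ofReal_sub, Complex.norm_real, Real.norm_eq_abs, Real.norm_eq_abs, Real.abs_exp]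
  exact h1 t ht

theorem f2_top' (hCT : T_CT2) (hYC : T_YC) (hFD : T_FD) (hDC : T_DC2) (M : La k)
    (x y : Pl k → ℝ) (hy : ∀ v, 0 < y v) (a : ℝ) (ha : 0 < a) (r : ℝ) :
    (fun t => (f2 M x y (a * t) : ℂ) - ((vF k : ℝ) : ℂ)) =O[atTop] (fun t : ℝ => t ^ r) := by
  have h1 := (f2_top k hCT hYC hFD hDC M x y hy r).comp_tendsto
    (tendsto_id.const_mul_atTop ha)
  refine IsBigO.trans h1 ?_
  refine IsBigO.of_bound (a ^ r) ?_
  filter_upwards [eventually_ge_atTop 0] with t ht
  simp only [Function.comp, id]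
  rw [Real.mul_rpow ha.le ht, norm_mul, Real.norm_of_nonneg (Real.rpow_nonneg ha.le r)]

end

open scoped Classical in
theorem pf_WP2 (hIXD : T_IXD) (hTHT : T_THT) (hUI2 : T_UI2) (hCT2 : T_CT2) (hDC2 : T_DC2) :
    T_WP2 := by
  intro k _ _ _ M x y hM hy
  have hFD : T_FD := Pool.Agent.H66.HK.fd
  have hYC : T_YC := Pool.Agent.H87.HK.yc_main
  have hD : (0 : ℝ) < Dm M := by
    unfold Dm
    exact_mod_cast Nat.mul_pos (hIXD k).1 (Nat.pos_of_ne_zero hM)
  have ha : (0 : ℝ) < ((Dm M : ℝ) ^ dg k)⁻¹ := by positivity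
  refine ⟨{ f := fun t => (f2 M x y t : ℂ)
            g := fun t => (f2 (du M) x y (((Dm M : ℝ) ^ dg k)⁻¹ * t) : ℂ)
            k := 2
            ε := (((Dm M : ℝ)⁻¹ : ℝ) : ℂ)
            f₀ := ((vF k : ℝ) : ℂ)
            g₀ := ((vF k : ℝ) : ℂ)
            hf_int := by
              have h := f2_locInt k hCT2 hYC hFD M x y hy 1 one_pos
              simpa using h
            hg_int := f2_locInt k hCT2 hYC hFD _ x y hy _ ha
            hk := two_pos
            hε := by
              rw [Ne, Complex.ofReal_eq_zero, inv_eq_zero]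
              exact hD.ne'
            h_feq := fun t ht => by
              have h2 : (t : ℝ) ^ (2 : ℝ) = t ^ 2 := by
                rw [← Real.rpow_natCast]; norm_num
              rw [f2_feq k hTHT hUI2 hYC hFD hIXD M x y hM hy t ht, smul_eq_mul, h2]
              push_cast
              ring
            hf_top := fun r => f2_top k hCT2 hYC hFD hDC2 M x y hy r
            hg_top := fun r => f2_top' k hCT2 hYC hFD hDC2 _ x y hy _ ha r },
    fun t => rfl, fun t => rfl, rfl, rfl, rfl, rfl⟩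

end Pool.Agent.H61.CM4B
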