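import Pool.Agent.H61.CM4B.Br
import Pool.Agent.H61.CM4B.GGB
import Pool.Agent.H61.CM4B.WP2
import Pool.Agent.H13.CM4B.CT2
import Pool.Agent.H14.CM4B.GI2
import Pool.Agent.H21.CM4B.DUB
import Pool.Agent.H21.CM4B.IXD
import Pool.Agent.H31.CM4B.DC2
import Pool.Agent.H33.CM4B.THT
import Pool.Agent.H35.CM4B.ME2
import Pool.Agent.H36.CM4B.EZA
import Pool.Agent.H38.CM4B.FOR
import Pool.Agent.H38.CM4B.KCB
import Pool.Agent.H38.CM4B.KCD
import Pool.Agent.H38.CM4B.KSH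
import Pool.Agent.H50.CM4B.KIN
import Pool.Agent.H60.CM4B.SHI
import Pool.Agent.H60.CM4B.UI2
import Pool.Agent.H63.CM4B.PHI
import Pool.Agent.H73.CM4B.SKC
import Pool.Agent.H90.CM4B.LBA

/-!
# The assembly of the part B1
-/

set_option autoImplicit false

open MeasureTheory Set Filter NumberField NumberField.InfinitePlace Pool.Agent.H65.CM4
  Pool.Agent.H61.CM4
open scoped Real

namespace Pool.Agent.H61.CM4B

theorem c_GGB : T_GGB := pf_GGB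
theorem c_KIN : T_KIN := Pool.Agent.H50.CM4B.pf_KIN c_GGB
theorem c_KSH : T_KSH := Pool.Agent.H38.CM4B.pf_KSH c_GGB c_KIN
theorem c_KCB : T_KCB := Pool.Agent.H38.CM4B.pf_KCB c_KIN c_KSH
theorem c_KCD : T_KCD := Pool.Agent.H38.CM4B.pf_KCD c_GGB c_KIN
theorem c_IXD : T_IXD := Pool.Agent.H21.CM4B.pf_IXD
theorem c_LBA : T_LBA := Pool.Agent.H90.CM4B.pf_LBA c_IXD
theorem c_DUB : T_DUB := Pool.Agent.H21.CM4B.pf_DUB c_IXD
theorem c_THT : T_THT := Pool.Agent.H33.CM4B.pf_THT c_LBA c_DUB c_IXD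
theorem c_UI2 : T_UI2 := Pool.Agent.H60.CM4B.pf_UI2
theorem c_CT2 : T_CT2 := Pool.Agent.H13.CM4B.pf_CT2 c_IXD c_THT
theorem c_DC2 : T_DC2 := Pool.Agent.H31.CM4B.pf_DC2 c_IXD c_THT
theorem c_WP2 : T_WP2 := pf_WP2 c_IXD c_THT c_UI2 c_CT2 c_DC2
theorem c_FOR : T_FOR := Pool.Agent.H38.CM4B.pf_FOR
theorem c_GI2 : T_GI2 := Pool.Agent.H14.CM4B.pf_GI2
theorem c_ME2 : T_ME2 :=
  Pool.Agent.H35.CM4B.pf_ME2 c_IXD c_THT c_UI2 c_CT2 c_DC2 c_WP2 c_FOR c_GI2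
theorem c_PHI : T_PHI := Pool.Agent.H63.CM4B.pf_PHI c_IXD c_WP2 c_ME2
theorem c_SKC : T_SKC := Pool.Agent.H73.CM4B.pf_SKC c_KIN c_KSH
theorem c_SHI : T_SHI := Pool.Agent.H60.CM4B.pf_SHI
theorem c_EZA : T_EZA := Pool.Agent.H36.CM4B.pf_EZA c_IXD c_ME2 c_PHI c_SKC c_SHI

theorem e_KCB (k : Type) [Field k] [NumberField k] [IsTotallyReal k] :
    Pool.Agent.H89.CM4.T_KCB k := br_KCB c_KCB k

theorem e_KCD (k : Type) [Field k] [NumberField k] [IsTotallyReal k] :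
    Pool.Agent.H89.CM4.T_KCD k := br_KCD c_KCD k

theorem e_EZA (k : Type) [Field k] [NumberField k] [IsTotallyReal k] :
    Pool.Agent.H89.CM4.T_EZA k := br_EZA c_EZA k

end Pool.Agent.H61.CM4B
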