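import Pool.Agent.H61.CM4.TargetsB
import Pool.Agent.H89.CM4.Targets2

/-!
# Bridges from the part B1 to the part B2
-/

set_option autoImplicit false

open MeasureTheory Set Filter NumberField NumberField.InfinitePlace Pool.Agent.H65.CM4
open scoped Real

namespace Pool.Agent.H61.CM4B

theorem br_KCB (h : Pool.Agent.H61.CM4.T_KCB) (k : Type) [Field k] [NumberField k]
    [IsTotallyReal k] : Pool.Agent.H89.CM4.T_KCB k := by
  intro κ hκ hκ8
  obtain ⟨C, j, hC, H⟩ := h (dg k) 3 κ hκ hκ8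
  refine ⟨C, j, hC, ?_⟩
  intro s r hs hr hri
  have ha : (0 : ℝ) < 10 * (1 + |s.im|) := by positivity
  have h1 : |r.im| ≤ r.re / (10 * (1 + |s.im|)) := by
    rw [le_div_iff₀ ha]; linarith
  have h2 := H s r hs hr h1
  have hn : r.re ≤ ‖r‖ := Complex.re_le_norm r
  have h3 : ‖r‖ ^ (-(1 / 2 + 2 * κ)) ≤ r.re ^ (-(1 / 2 + 2 * κ)) :=
    Real.rpow_le_rpow_of_nonpos hr hn (by linarith)
  have h4 : (1 + ‖r‖) ^ (-((3 : ℕ) : ℝ)) ≤ (1 + r.re) ^ (-(3 : ℝ)) := by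
    have h5 : (-((3 : ℕ) : ℝ)) = -(3 : ℝ) := by norm_num
    rw [h5]
    exact Real.rpow_le_rpow_of_nonpos (by linarith) (by linarith) (by norm_num)
  have h6 : (1 + |s.im|) ^ j * Real.exp (-(π * dg k * |s.im| / 2)) =
      Pool.Agent.H89.CM4.ht k j s.im := by
    unfold Pool.Agent.H89.CM4.ht
    congr 2
    ring
  have h7 : 0 ≤ ‖r‖ ^ (-(1 / 2 + 2 * κ)) := by positivity
  have h8 : 0 ≤ r.re ^ (-(1 / 2 + 2 * κ)) := by positivity
  calc ‖Kc (dg k) s r‖ ≤ C * (1 + |s.im|) ^ j * Real.exp (-(π * dg k * |s.im| / 2)) *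
        (‖r‖ ^ (-(1 / 2 + 2 * κ)) * (1 + ‖r‖) ^ (-((3 : ℕ) : ℝ))) := h2
    _ ≤ C * (1 + |s.im|) ^ j * Real.exp (-(π * dg k * |s.im| / 2)) *
        (r.re ^ (-(1 / 2 + 2 * κ)) * (1 + r.re) ^ (-(3 : ℝ))) := by
        gcongr
    _ = C * ((1 + |s.im|) ^ j * Real.exp (-(π * dg k * |s.im| / 2))) *
        r.re ^ (-(1 / 2 + 2 * κ)) * (1 + r.re) ^ (-(3 : ℝ)) := by ring
    _ = C * Pool.Agent.H89.CM4.ht k j s.im * r.re ^ (-(1 / 2 + 2 * κ)) *
        (1 + r.re) ^ (-(3 : ℝ)) := by rw [h6]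

theorem br_KCD (h : Pool.Agent.H61.CM4.T_KCD) (k : Type) [Field k] [NumberField k]
    [IsTotallyReal k] : Pool.Agent.H89.CM4.T_KCD k := by
  intro s r hs hr _
  rw [abs_le] at hs
  have h1 := h (dg k) s (by linarith [hs.1]) (by linarith [hs.2])
  exact (h1 r (Or.inl hr)).differentiableAt (Complex.isOpen_slitPlane.mem_nhds (Or.inl hr))

theorem br_EZA (h : Pool.Agent.H61.CM4.T_EZA) (k : Type) [Field k] [NumberField k]
    [IsTotallyReal k] : Pool.Agent.H89.CM4.T_EZA k := by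
  classical
  intro M x y hM hy
  obtain ⟨hq, hqn, hS, Φ, hΦ, -, hE, hD⟩ := h k M x y hM hy
  refine ⟨?_, ?_⟩
  · refine hΦ.differentiableOn.congr ?_
    intro s hs
    exact hE s (by linarith [hs.1]) hs.2
  · intro s hs1 hs2
    have hix : (0 : ℝ) < ix M := by exact_mod_cast Nat.pos_of_ne_zero hM
    refine ⟨?_, ?_⟩
    · have h1 := ((hS s.re hs1).mul_right ((ix M : ℝ) ^ s.re))
      refine Summable.of_norm_bounded h1 ?_
      intro u
      by_cases hu : u ∈ M ∧ u ∈ Fo k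
      · have hu0 : u ≠ 0 := hu.2.1
        have e1 : (qn (fun v => (x v : ℂ)) (fun v => (y v : ℂ)) u / (ix M : ℂ)) =
            ((Pool.Agent.H61.CM4.qp x y u / ix M : ℝ) : ℂ) := by
          rw [hqn u]; push_cast; rfl
        rw [if_pos hu, if_pos hu, e1, Complex.norm_cpow_eq_rpow_re_of_pos
          (div_pos (hq u hu0) hix), Complex.neg_re, div_eq_mul_inv,
          Real.mul_rpow (hq u hu0).le (inv_nonneg.mpr hix.le), Real.inv_rpow hix.le,
          Real.rpow_neg hix.le, inv_inv]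
      · rw [if_neg hu, if_neg hu]
        simp
    · rw [hE s (by linarith) hs2, hD s hs1]

end Pool.Agent.H61.CM4B
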